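import Mathlib
import Pool.Agent.H49.Glue.Robust

set_option autoImplicit false

open Finset SimpleGraph

namespace Pool.Agent.H49.Asym

/-- A bipartite graph `L (X, Y)` with an ordered bipartition: `X` is the set of the vertices `u`
with `left u = true`. -/
structure Ordered (U : Type) where
  graph : SimpleGraph U
  left : U → Bool
  proper : ∀ u v, graph.Adj u v → left u ≠ left v

/-- The same graph with the classes in the other order. -/
def Ordered.rev {U : Type} (L : Ordered U) : Ordered U where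
  graph := L.graph
  left := fun u => !L.left u
  proper := fun u v h h' => L.proper u v h (by simpa using h')

variable {V : Type}

/-- `φ` is an ordered copy of `L` in the graph `K` with the sides `σ`. -/
def SPlaces {W : Type} (L : Ordered W) (σ : V → Bool) (K : SimpleGraph V) (φ : W → V) : Prop :=
  Glue.Places L.graph K φ ∧ ∀ w, σ (φ w) = L.left w

/-- The edge `x y` of `K` is in ordered copies of `L` which avoid any given set of at most `τ`
other vertices. -/
def SRobust {W : Type} (L : Ordered W) (σ : V → Bool) (τ : ℕ) (K : SimpleGraph V)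
    (x y : V) : Prop :=
  ∀ T : Finset V, T.card ≤ τ → x ∉ T → y ∉ T →
    ∃ φ : W → V, SPlaces L σ K φ ∧ (∃ a b, L.graph.Adj a b ∧ φ a = x ∧ φ b = y) ∧
      ∀ w, φ w ∉ T

theorem SPlaces.mono {W : Type} {L : Ordered W} {σ : V → Bool} {K G : SimpleGraph V}
    {φ : W → V} (h : SPlaces L σ K φ) (hle : K ≤ G) : SPlaces L σ G φ :=
  ⟨h.1.mono hle, h.2⟩

/-- The robust part for a family of ordered graphs. -/
theorem core (m : ℕ) (W : ℕ → Type) (H : ∀ i, Ordered (W i)) (σ : V → Bool) (τ : ℕ) [Finite V]
    (N : ℕ) : ∀ G : SimpleGraph V, G.edgeSet.ncard ≤ N → ∃ K ≤ G,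
      (∀ x y, K.Adj x y → ∀ i < m, SRobust (H i) σ τ K x y) ∧
      ∃ (T : Sym2 V → Finset V) (t : Sym2 V → ℕ), (∀ e, (T e).card ≤ τ) ∧
        (∀ e, ∀ x ∈ e, x ∉ T e) ∧ (∀ x y, G.Adj x y → ¬ K.Adj x y → t s(x, y) < m) ∧
        ∀ i φ, SPlaces (H i) σ G φ → (∃ a b, (H i).graph.Adj a b) →
          (∀ a b, (H i).graph.Adj a b → ¬ K.Adj (φ a) (φ b) ∧ t s(φ a, φ b) = i) →
          ∃ a b w, (H i).graph.Adj a b ∧ φ w ∈ T s(φ a, φ b) := by
  classical
  induction N with
  | zero =>
    intro G hG
    have h0 : G.edgeSet.ncard = 0 := by omega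
    rw [Set.ncard_eq_zero] at h0
    have hno : ∀ x y, ¬ G.Adj x y := by
      intro x y hxy
      have : s(x, y) ∈ G.edgeSet := hxy
      rw [h0] at this
      exact this
    refine ⟨G, le_rfl, fun x y hxy => absurd hxy (hno x y), fun _ => ∅, fun _ => 0, by simp,
      by simp, fun x y hxy => absurd hxy (hno x y), ?_⟩
    rintro i φ hφ ⟨a, b, hab⟩ _
    exact absurd (hφ.1.2 a b hab) (hno _ _)
  | succ N ih =>
    intro G hG
    by_cases hall : ∀ x y, G.Adj x y → ∀ i < m, SRobust (H i) σ τ G x y
    · refine ⟨G, le_rfl, hall, fun _ => ∅, fun _ => 0, by simp, by simp,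
        fun x y hxy hn => absurd hxy hn, ?_⟩
      rintro i φ hφ ⟨a, b, hab⟩ hn
      exact absurd (hφ.1.2 a b hab) (hn a b hab).1
    · push Not at hall
      obtain ⟨x, y, hxy, i0, hi0, hnr⟩ := hall
      unfold SRobust at hnr
      push Not at hnr
      obtain ⟨T0, hT0, hxT, hyT, hT0'⟩ := hnr
      set G1 : SimpleGraph V := G.deleteEdges {s(x, y)} with hG1
      have hlt : G1.edgeSet.ncard < G.edgeSet.ncard := by
        apply Set.ncard_lt_ncard _ (Set.toFinite _)
        rw [hG1, edgeSet_deleteEdges]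
        refine ⟨Set.sdiff_subset, fun hsub => ?_⟩
        have h1 : s(x, y) ∈ G.edgeSet := hxy
        exact (hsub h1).2 rfl
      obtain ⟨K, hK, hKr, T1, t1, hT1, hT1', ht1, hT1''⟩ := ih G1 (by omega)
      have hG1G : G1 ≤ G := deleteEdges_le _
      refine ⟨K, hK.trans hG1G, hKr, Function.update T1 s(x, y) T0,
        Function.update t1 s(x, y) i0, ?_, ?_, ?_, ?_⟩
      · intro e
        by_cases he : e = s(x, y)
        · subst he
          simpa using hT0
        · rw [Function.update_of_ne he]
          exact hT1 e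
      · intro e z hz
        by_cases he : e = s(x, y)
        · subst he
          rw [Function.update_self]
          rcases Sym2.mem_iff.1 hz with h | h
          · rw [h]; exact hxT
          · rw [h]; exact hyT
        · rw [Function.update_of_ne he]
          exact hT1' e z hz
      · intro u v huv hn
        by_cases he : s(u, v) = s(x, y)
        · rw [he, Function.update_self]
          exact hi0
        · rw [Function.update_of_ne he]
          apply ht1 u v _ hn
          rw [hG1, deleteEdges_adj]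
          exact ⟨huv, he⟩
      · rintro i φ hφ hne hn
        by_cases hthrough : ∃ a b, (H i).graph.Adj a b ∧ φ a = x ∧ φ b = y
        · obtain ⟨a', b', hab', ha', hb'⟩ := hthrough
          have hi : i0 = i := by
            have := (hn a' b' hab').2
            rw [ha', hb', Function.update_self] at this
            exact this
          subst hi
          obtain ⟨w, hw⟩ := hT0' φ hφ ⟨a', b', hab', ha', hb'⟩
          refine ⟨a', b', w, hab', ?_⟩
          rw [ha', hb', Function.update_self]
          exact hw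
        · push Not at hthrough
          have hne' : ∀ a b, (H i).graph.Adj a b → s(φ a, φ b) ≠ s(x, y) := by
            intro a b hab heq
            rcases Sym2.eq_iff.1 heq with ⟨h1, h2⟩ | ⟨h1, h2⟩
            · exact hthrough a b hab h1 h2
            · exact hthrough b a hab.symm h2 h1
          have hφ1 : SPlaces (H i) σ G1 φ := by
            refine ⟨⟨hφ.1.1, fun a b hab => ?_⟩, hφ.2⟩
            rw [hG1, deleteEdges_adj]
            exact ⟨hφ.1.2 a b hab, hne' a b hab⟩
          obtain ⟨a', b', w, hab', hw⟩ := hT1'' i φ hφ1 hne (fun a b hab => by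
            have := hn a b hab
            rw [Function.update_of_ne (hne' a b hab)] at this
            exact this)
          refine ⟨a', b', w, hab', ?_⟩
          rw [Function.update_of_ne (hne' a' b' hab')]
          exact hw

/-- The deleted edges of type `i`. -/
def typed (G K : SimpleGraph V) (t : Sym2 V → ℕ) (i : ℕ) : SimpleGraph V where
  Adj x y := (G \ K).Adj x y ∧ t s(x, y) = i
  symm := ⟨fun x y h => ⟨h.1.symm, by rw [Sym2.eq_swap]; exact h.2⟩⟩
  loopless := ⟨fun x h => (G \ K).loopless.irrefl x h.1⟩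

theorem typed_le (G K : SimpleGraph V) (t : Sym2 V → ℕ) (i : ℕ) : typed G K t i ≤ G :=
  fun _ _ h => (sdiff_le : G \ K ≤ G) h.1

theorem ncard_sdiff_le [Finite V] (G K : SimpleGraph V) (t : Sym2 V → ℕ) (m : ℕ)
    (ht : ∀ x y, G.Adj x y → ¬ K.Adj x y → t s(x, y) < m) :
    (G \ K).edgeSet.ncard ≤ ∑ i ∈ Finset.range m, (typed G K t i).edgeSet.ncard := by
  have h : (G \ K).edgeSet ⊆ ⋃ i : Fin m, (typed G K t i).edgeSet := by
    intro e
    induction e using Sym2.ind with
    | _ x y =>
      intro hxy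
      rw [mem_edgeSet] at hxy
      have hxy' := hxy
      rw [sdiff_adj] at hxy'
      rw [Set.mem_iUnion]
      exact ⟨⟨t s(x, y), ht x y hxy'.1 hxy'.2⟩, hxy, rfl⟩
  calc (G \ K).edgeSet.ncard ≤ (⋃ i : Fin m, (typed G K t i).edgeSet).ncard :=
        Set.ncard_le_ncard h (Set.toFinite _)
    _ ≤ ∑ i : Fin m, (typed G K t i).edgeSet.ncard := Set.ncard_iUnion_le_of_fintype _
    _ = _ := Fin.sum_univ_eq_sum_range (fun i => (typed G K t i).edgeSet.ncard) m

/-- **Robust subgraphs for a family of ordered graphs.** -/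
theorem exists_robust [Fintype V] (m : ℕ) (W : ℕ → Type) (H : ∀ i, Ordered (W i))
    (hH : ∀ i < m, (H i).graph.Preconnected) (hne : ∀ i < m, ∃ a b, (H i).graph.Adj a b)
    (σ : V → Bool) (τ : ℕ) (hτ : 1 ≤ τ) (G : SimpleGraph V) (B : ℕ → ℕ)
    (hB : ∀ i < m, ∀ D ≤ G, (∀ φ, ¬ SPlaces (H i) σ D φ) → D.edgeSet.ncard ≤ B i) :
    ∃ K ≤ G, G.edgeSet.ncard ≤ K.edgeSet.ncard + 4 * τ * ∑ i ∈ Finset.range m, B i ∧
      ∀ x y, K.Adj x y → ∀ i < m, SRobust (H i) σ τ K x y := by
  classical
  obtain ⟨K, hK, hKr, T, t, hT1, hT2, hT3, hT4⟩ := core m W H σ τ _ G le_rfl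
  refine ⟨K, hK, ?_, hKr⟩
  rw [Glue.ncard_sdiff_add hK]
  apply Nat.add_le_add_left
  refine (ncard_sdiff_le G K t m hT3).trans ?_
  rw [Finset.mul_sum]
  apply Finset.sum_le_sum
  intro i hi
  rw [Finset.mem_range] at hi
  have h1 := Glue.sum_good (q := 2 * τ) T hT1 hT2 (typed G K t i)
  simp_rw [Glue.card_filter_good] at h1
  rw [← Glue.ncard_edgeSet] at h1
  have h2 : ∀ c : V → Fin (2 * τ), (Glue.goodGraph (typed G K t i) T c).edgeSet.ncard ≤ B i := by
    intro c
    apply hB i hi _ ((Glue.goodGraph_le _ _ _).trans (typed_le _ _ _ _))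
    intro φ hφ
    have hG : SPlaces (H i) σ G φ :=
      hφ.mono ((Glue.goodGraph_le _ _ _).trans (typed_le _ _ _ _))
    obtain ⟨a, b, w, hab, hw⟩ := hT4 i φ hG (hne i hi) (fun a b hab => by
      have h := (hφ.1.2 a b hab).1
      refine ⟨?_, h.2⟩
      have h' := h.1
      rw [sdiff_adj] at h'
      exact h'.2)
    have hgood := (hφ.1.2 a b hab).2
    exact hgood.2 _ hw (φ a) (Sym2.mem_mk_left _ _) (Glue.same_colour (hH i hi) hφ.1 w a)
  have h3 : ∑ c : V → Fin (2 * τ), (Glue.goodGraph (typed G K t i) T c).edgeSet.ncard ≤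
      (2 * τ) ^ Fintype.card V * B i := by
    calc _ ≤ ∑ c : V → Fin (2 * τ), B i := Finset.sum_le_sum fun c _ => h2 c
      _ = _ := by
          rw [Finset.sum_const, smul_eq_mul, Finset.card_univ, Fintype.card_fun,
            Fintype.card_fin]
  have hpos : 0 < (2 * τ) ^ Fintype.card V := by positivity
  generalize (2 * τ) ^ Fintype.card V = N at *
  generalize B i = E at *
  generalize (typed G K t i).edgeSet.ncard = d at *
  generalize (∑ c : V → Fin (2 * τ),
    (Glue.goodGraph (typed G K t i) T c).edgeSet.ncard) = S at *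
  have h4 : (2 * τ) ^ 2 * S ≤ (2 * τ) ^ 2 * (N * E) := Nat.mul_le_mul_left _ h3
  have h5 : (τ * N) * d ≤ (τ * N) * (4 * τ * E) := by
    have e1 : 2 * τ * N * d = τ * N * d + τ * N * d := by ring
    have e2 : (2 * τ) ^ 2 * (N * E) = (τ * N) * (4 * τ * E) := by ring
    omega
  exact Nat.le_of_mul_le_mul_left h5 (by positivity)

end Pool.Agent.H49.Asym
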