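import Mathlib
import Pool.Agent.H49.Asym.Core

set_option autoImplicit false

open Finset SimpleGraph

namespace Pool.Agent.H49.Asym

variable {V U S : Type}

/-- The automorphisms of `L` which keep the sides act transitively on the edges. -/
def EdgeTransitive {W : Type} (L : Ordered W) : Prop :=
  ∀ a b c d, L.graph.Adj a b → L.graph.Adj c d → L.left a = L.left c →
    ∃ α : L.graph ≃g L.graph, α a = c ∧ α b = d ∧ ∀ w, L.left (α w) = L.left w

/-- All degrees of `L` are at least two. -/
def DegreesTwo {W : Type} (L : Ordered W) : Prop :=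
  (∀ a, ∃ b, L.graph.Adj a b) ∧ ∀ a b, L.graph.Adj a b → ∃ b', b' ≠ b ∧ L.graph.Adj a b'

/-- The vertex `u` belongs to the copy `e` of the skeleton or to one of the first `i` copies
`f 0, …, f (i - 1)`. -/
def Used {W : ℕ → Type} (e : S → U) (f : ∀ i, W i → U) (i : ℕ) (u : U) : Prop :=
  (∃ s, e s = u) ∨ ∃ j < i, ∃ w, f j w = u

/-- `F` is obtained from `J` by gluing `H 0, …, H (m - 1)` one after the other, with the sides:
`F` is the union of the copy `e` of `J` and the copies `f i` of `H i`, and each of the latter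
shares with the union of the graphs before it at most one vertex, or exactly the two ends of an
edge of both. -/
def IsGluing {W : ℕ → Type} (J : Ordered S) (H : ∀ i, Ordered (W i)) (m : ℕ)
    (F : Ordered U) : Prop :=
  ∃ (e : S → U) (f : ∀ i, W i → U), Function.Injective e ∧ (∀ s, F.left (e s) = J.left s) ∧
    (∀ i < m, Function.Injective (f i) ∧ ∀ w, F.left (f i w) = (H i).left w) ∧
    (∀ u, Used e f m u) ∧
    (∀ u v, F.graph.Adj u v ↔ (∃ a b, J.graph.Adj a b ∧ e a = u ∧ e b = v) ∨
      ∃ i < m, ∃ a b, (H i).graph.Adj a b ∧ f i a = u ∧ f i b = v) ∧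
    ∀ i < m,
      (∀ a b, Used e f i (f i a) → Used e f i (f i b) → a = b) ∨
      ∃ a b, (H i).graph.Adj a b ∧
        ((∃ a' b', J.graph.Adj a' b' ∧ e a' = f i a ∧ e b' = f i b) ∨
          ∃ j < i, ∃ a' b', (H j).graph.Adj a' b' ∧ f j a' = f i a ∧ f j b' = f i b) ∧
        ∀ w, Used e f i (f i w) → w = a ∨ w = b

section

variable {W : Type} {H : Ordered W} {σ : V → Bool} {K : SimpleGraph V} {τ : ℕ}

theorem exists_fresh [DecidableEq V] (hdeg : DegreesTwo H)
    (hK : ∀ x y, K.Adj x y → SRobust H σ τ K x y) (x : V) (hx : ∃ z, K.Adj x z) (T : Finset V)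
    (hT : T.card ≤ τ) : ∃ y, K.Adj x y ∧ y ∉ T := by
  obtain ⟨z, hz⟩ := hx
  by_cases hzT : z ∉ T
  · exact ⟨z, hz, hzT⟩
  · obtain ⟨φ, hφ, ⟨a, b, hab, ha, hb⟩, hav⟩ := hK x z hz ((T.erase x).erase z)
      (((Finset.card_le_card (Finset.erase_subset _ _)).trans
        (Finset.card_le_card (Finset.erase_subset _ _))).trans hT) (by simp) (by simp)
    obtain ⟨b', hb', hab'⟩ := hdeg.2 a b hab
    refine ⟨φ b', ?_, ?_⟩
    · rw [← ha]
      exact hφ.1.2 a b' hab'
    · intro hmem
      apply hav b'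
      rw [Finset.mem_erase, Finset.mem_erase]
      refine ⟨?_, ?_, hmem⟩
      · rw [← hb]
        exact fun h => hb' (hφ.1.1 h)
      · rw [← ha]
        exact fun h => (hab'.ne) (hφ.1.1 h).symm

theorem exists_at_arc (harc : EdgeTransitive H)
    (hK : ∀ x y, K.Adj x y → SRobust H σ τ K x y) (x y : V) (hxy : K.Adj x y) (T : Finset V)
    (hT : T.card ≤ τ) (hx : x ∉ T) (hy : y ∉ T) (a b : W) (hab : H.graph.Adj a b)
    (hs : σ x = H.left a) :
    ∃ φ, SPlaces H σ K φ ∧ φ a = x ∧ φ b = y ∧ ∀ w, φ w ∉ T := by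
  obtain ⟨φ, hφ, ⟨c, d, hcd, hc, hd⟩, hav⟩ := hK x y hxy T hT hx hy
  have hac : H.left a = H.left c := by
    rw [← hs, ← hc, hφ.2]
  obtain ⟨α, hαa, hαb, hαs⟩ := harc a b c d hab hcd hac
  refine ⟨φ ∘ α, ⟨⟨hφ.1.1.comp α.injective, ?_⟩, ?_⟩, ?_, ?_, fun w => hav (α w)⟩
  · intro u v huv
    exact hφ.1.2 _ _ (α.map_adj_iff.2 huv)
  · intro w
    rw [Function.comp_apply, hφ.2, hαs]
  · rw [Function.comp_apply, hαa, hc]
  · rw [Function.comp_apply, hαb, hd]

theorem exists_at_vertex (harc : EdgeTransitive H) (hiso : ∀ a, ∃ b, H.graph.Adj a b)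
    (hK : ∀ x y, K.Adj x y → SRobust H σ τ K x y) (x : V) (T : Finset V)
    (hx : ∃ y, K.Adj x y ∧ y ∉ T)
    (hT : T.card ≤ τ) (hxT : x ∉ T) (a : W) (hs : σ x = H.left a) :
    ∃ φ, SPlaces H σ K φ ∧ φ a = x ∧ ∀ w, φ w ∉ T := by
  obtain ⟨y, hxy, hyT⟩ := hx
  obtain ⟨b, hab⟩ := hiso a
  obtain ⟨φ, h1, h2, _, h4⟩ := exists_at_arc harc hK x y hxy T hT hxT hyT a b hab hs
  exact ⟨φ, h1, h2, h4⟩

theorem exists_free [Nonempty W] (harc : EdgeTransitive H)
    (hiso : ∀ a, ∃ b, H.graph.Adj a b)
    (hK : ∀ x y, K.Adj x y → SRobust H σ τ K x y) (T : Finset V)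
    (hne : ∃ y, y ∉ T ∧ ∃ z, K.Adj y z ∧ z ∉ T)
    (hT : T.card ≤ τ) : ∃ φ, SPlaces H σ K φ ∧ ∀ w, φ w ∉ T := by
  obtain ⟨y, hyT, hy⟩ := hne
  obtain ⟨b, hb⟩ := hiso (Classical.arbitrary W)
  have hcase : ∃ a, σ y = H.left a := by
    by_cases h : σ y = H.left (Classical.arbitrary W)
    · exact ⟨_, h⟩
    · refine ⟨b, ?_⟩
      have h' := H.proper _ _ hb
      cases h1 : σ y <;> cases h2 : H.left (Classical.arbitrary W) <;>
        cases h3 : H.left b <;> simp_all
  obtain ⟨a, ha⟩ := hcase
  obtain ⟨φ, h1, _, h3⟩ := exists_at_vertex harc hiso hK y T hy hT hyT a ha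
  exact ⟨φ, h1, h3⟩

end

/-- Gluings embed greedily in a graph with robust edges that contains the skeleton. -/
theorem embed [Finite U] {W : ℕ → Type} {J : Ordered S} {H : ∀ i, Ordered (W i)} {m : ℕ}
    {σ : V → Bool} {K : SimpleGraph V} {τ : ℕ} (hW : ∀ i < m, Nonempty (W i))
    (harc : ∀ i < m, EdgeTransitive (H i)) (hiso : ∀ i < m, ∀ a, ∃ b, (H i).graph.Adj a b)
    (h2 : ∃ i < m, DegreesTwo (H i))
    (hJ : ∀ s, ∃ t, J.graph.Adj s t)
    (hK : ∀ x y, K.Adj x y → ∀ i < m, SRobust (H i) σ τ K x y) (hne : ∃ x y, K.Adj x y)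
    (hJK : ∃ ψ, SPlaces J σ K ψ)
    (F : Ordered U) (hF : IsGluing J H m F) (hτ : Nat.card U ≤ τ) :
    ∃ g, SPlaces F σ K g := by
  classical
  have := Fintype.ofFinite U
  rw [Nat.card_eq_fintype_card] at hτ
  obtain ⟨e, f, he, hes, hinj, hcov, hadj, hatt⟩ := hF
  obtain ⟨ψ, hψ⟩ := hJK
  obtain ⟨i1, hi1, hdeg1⟩ := h2
  have hfresh : ∀ (x : V), (∃ z, K.Adj x z) → ∀ T : Finset V, T.card ≤ τ →
      ∃ y, K.Adj x y ∧ y ∉ T := fun x hx T hT =>
    exists_fresh hdeg1 (fun x y h => hK x y h i1 hi1) x hx T hT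
  have key : ∀ k ≤ m, ∃ g : U → V, (∀ u v, Used e f k u → Used e f k v → g u = g v → u = v) ∧
      (∀ u, Used e f k u → σ (g u) = F.left u) ∧
      (∀ a b, J.graph.Adj a b → K.Adj (g (e a)) (g (e b))) ∧
      ∀ j < k, ∀ a b, (H j).graph.Adj a b → K.Adj (g (f j a)) (g (f j b)) := by
    intro k
    induction k with
    | zero =>
      intro _
      obtain ⟨x, y, _⟩ := hne
      have hg : ∀ s, (fun u => if h : ∃ s, e s = u then ψ h.choose else x) (e s) = ψ s := by
        intro s
        have hex : ∃ s', e s' = e s := ⟨s, rfl⟩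
        have : hex.choose = s := he hex.choose_spec
        simp only
        rw [dif_pos hex, this]
      refine ⟨fun u => if h : ∃ s, e s = u then ψ h.choose else x, ?_, ?_, ?_, ?_⟩
      · rintro u v (⟨s, rfl⟩ | ⟨j, hj, _⟩) (⟨t, rfl⟩ | ⟨j', hj', _⟩) huv
        · rw [hg s, hg t] at huv
          rw [hψ.1.1 huv]
        · omega
        · omega
        · omega
      · rintro u (⟨s, rfl⟩ | ⟨j, hj, _⟩)
        · rw [hg s, hψ.2, hes]
        · omega
      · intro a b hab
        rw [hg a, hg b]
        exact hψ.1.2 a b hab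
      · intro j hj
        omega
    | succ k ih =>
      intro hk
      obtain ⟨g, hg1, hgs, hgJ, hg2⟩ := ih (by omega)
      have hkm : k < m := by omega
      have hKk : ∀ x y, K.Adj x y → SRobust (H k) σ τ K x y := fun x y h => hK x y h k hkm
      have hfk : Function.Injective (f k) := (hinj k hkm).1
      have hsk : ∀ w, F.left (f k w) = (H k).left w := (hinj k hkm).2
      have hWk := hW k hkm
      set T : Finset V := (univ.filter fun u => Used e f k u).image g with hTdef
      have hTcard : T.card ≤ τ := by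
        have h2 : T.card ≤ (univ.filter fun u => Used e f k u).card := Finset.card_image_le
        have h3 : (univ.filter fun u => Used e f k u).card ≤ Fintype.card U :=
          Finset.card_le_univ _
        omega
      have hTmem : ∀ u, Used e f k u → g u ∈ T := by
        intro u hu
        rw [hTdef, Finset.mem_image]
        exact ⟨u, by simpa using hu, rfl⟩
      have hnoniso : ∀ u, Used e f k u → ∃ z, K.Adj (g u) z := by
        rintro u (⟨s, rfl⟩ | ⟨j, hj, w, rfl⟩)
        · obtain ⟨t, ht⟩ := hJ s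
          exact ⟨_, hgJ s t ht⟩
        · obtain ⟨b, hb⟩ := hiso j (by omega) w
          exact ⟨_, hg2 j hj w b hb⟩
      -- the new copy
      have hφ : ∃ φ, SPlaces (H k) σ K φ ∧ (∀ w, Used e f k (f k w) → φ w = g (f k w)) ∧
          ∀ w, ¬ Used e f k (f k w) → φ w ∉ T := by
        rcases hatt k hkm with h1 | ⟨a, b, hab, hedge, hold⟩
        · by_cases hex : ∃ a0, Used e f k (f k a0)
          · obtain ⟨a0, ha0⟩ := hex
            have hTe : (T.erase (g (f k a0))).card ≤ τ :=
              (Finset.card_le_card (Finset.erase_subset _ _)).trans hTcard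
            obtain ⟨φ, p1, p2, p3⟩ := exists_at_vertex (harc k hkm) (hiso k hkm) hKk (g (f k a0))
              (T.erase (g (f k a0))) (hfresh _ (hnoniso _ ha0) _ hTe) hTe (by simp) a0
              (by rw [hgs _ ha0, hsk])
            refine ⟨φ, p1, ?_, ?_⟩
            · intro w hw
              rw [h1 w a0 hw ha0, p2]
            · intro w hw hmem
              apply p3 w
              rw [Finset.mem_erase]
              refine ⟨?_, hmem⟩
              rw [← p2]
              intro h
              have := p1.1.1 h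
              subst this
              exact hw ha0
          · push Not at hex
            obtain ⟨x0, z0, hxz⟩ := hne
            obtain ⟨y0, hxy0, hy0⟩ := hfresh x0 ⟨z0, hxz⟩ T hTcard
            obtain ⟨φ, p1, p2⟩ := exists_free (harc k hkm) (hiso k hkm) hKk T
              ⟨y0, hy0, hfresh y0 ⟨x0, hxy0.symm⟩ T hTcard⟩ hTcard
            exact ⟨φ, p1, fun w hw => absurd hw (hex w), fun w _ => p2 w⟩
        · have hxy : K.Adj (g (f k a)) (g (f k b)) ∧ Used e f k (f k a) ∧
              Used e f k (f k b) := by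
            rcases hedge with ⟨a', b', hab', hfa, hfb⟩ | ⟨j, hj, a', b', hab', hfa, hfb⟩
            · refine ⟨?_, Or.inl ⟨a', hfa⟩, Or.inl ⟨b', hfb⟩⟩
              rw [← hfa, ← hfb]
              exact hgJ a' b' hab'
            · refine ⟨?_, Or.inr ⟨j, hj, a', hfa⟩, Or.inr ⟨j, hj, b', hfb⟩⟩
              rw [← hfa, ← hfb]
              exact hg2 j hj a' b' hab'
          obtain ⟨hxy, hoa, hob⟩ := hxy
          obtain ⟨φ, p1, p2, p3, p4⟩ := exists_at_arc (harc k hkm) hKk (g (f k a)) (g (f k b)) hxy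
            ((T.erase (g (f k a))).erase (g (f k b)))
            (((Finset.card_le_card (Finset.erase_subset _ _)).trans
              (Finset.card_le_card (Finset.erase_subset _ _))).trans hTcard)
            (by simp) (by simp) a b hab (by rw [hgs _ hoa, hsk])
          refine ⟨φ, p1, ?_, ?_⟩
          · intro w hw
            rcases hold w hw with h | h
            · rw [h, p2]
            · rw [h, p3]
          · intro w hw hmem
            apply p4 w
            rw [Finset.mem_erase, Finset.mem_erase]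
            refine ⟨?_, ?_, hmem⟩
            · rw [← p3]
              intro h
              have := p1.1.1 h
              subst this
              exact hw hob
            · rw [← p2]
              intro h
              have := p1.1.1 h
              subst this
              exact hw hoa
      obtain ⟨φ, hφ1, hφ2, hφ3⟩ := hφ
      set g' : U → V := fun u => if h : ∃ w, f k w = u then φ h.choose else g u with hg'
      have hg'k : ∀ w, g' (f k w) = φ w := by
        intro w
        have hex : ∃ w', f k w' = f k w := ⟨w, rfl⟩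
        have : hex.choose = w := hfk hex.choose_spec
        simp only [hg']
        rw [dif_pos hex, this]
      have hg'old : ∀ u, Used e f k u → g' u = g u := by
        intro u hu
        by_cases hex : ∃ w, f k w = u
        · obtain ⟨w, rfl⟩ := hex
          rw [hg'k, hφ2 w hu]
        · simp only [hg']
          rw [dif_neg hex]
      have hcase : ∀ u, Used e f (k + 1) u → Used e f k u ∨ (¬ Used e f k u ∧ ∃ w, f k w = u) := by
        rintro u (⟨s, rfl⟩ | ⟨j, hj, w, rfl⟩)
        · exact Or.inl (Or.inl ⟨s, rfl⟩)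
        · by_cases ho : Used e f k (f j w)
          · exact Or.inl ho
          · right
            refine ⟨ho, ?_⟩
            have hjk : j = k := by
              by_contra hne
              exact ho (Or.inr ⟨j, by omega, w, rfl⟩)
            subst hjk
            exact ⟨w, rfl⟩
      refine ⟨g', ?_, ?_, ?_, ?_⟩
      · intro u v hu hv huv
        rcases hcase u hu with h1 | ⟨h1, w1, rfl⟩ <;> rcases hcase v hv with h2 | ⟨h2, w2, rfl⟩
        · rw [hg'old u h1, hg'old v h2] at huv
          exact hg1 u v h1 h2 huv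
        · rw [hg'old u h1, hg'k] at huv
          exact absurd (huv ▸ hTmem u h1) (hφ3 w2 h2)
        · rw [hg'old v h2, hg'k] at huv
          exact absurd (huv.symm ▸ hTmem v h2) (hφ3 w1 h1)
        · rw [hg'k, hg'k] at huv
          rw [hφ1.1.1 huv]
      · intro u hu
        rcases hcase u hu with h1 | ⟨h1, w1, rfl⟩
        · rw [hg'old u h1, hgs u h1]
        · rw [hg'k, hφ1.2, hsk]
      · intro a b hab
        rw [hg'old _ (Or.inl ⟨a, rfl⟩), hg'old _ (Or.inl ⟨b, rfl⟩)]
        exact hgJ a b hab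
      · intro j hj a b hab
        rcases Nat.lt_succ_iff_lt_or_eq.1 hj with h | h
        · rw [hg'old _ (Or.inr ⟨j, h, a, rfl⟩), hg'old _ (Or.inr ⟨j, h, b, rfl⟩)]
          exact hg2 j h a b hab
        · subst h
          rw [hg'k, hg'k]
          exact hφ1.1.2 a b hab
  obtain ⟨g, hg1, hgs, hgJ, hg2⟩ := key m le_rfl
  refine ⟨g, ⟨fun u v huv => hg1 u v (hcov u) (hcov v) huv, ?_⟩, fun u => hgs u (hcov u)⟩
  intro u v huv
  rcases (hadj u v).1 huv with ⟨a, b, hab, ha, hb⟩ | ⟨i, hi, a, b, hab, ha, hb⟩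
  · rw [← ha, ← hb]
    exact hgJ a b hab
  · rw [← ha, ← hb]
    exact hg2 i hi a b hab

end Pool.Agent.H49.Asym
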