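import Mathlib
import Pool.Agent.H49.Asym.Emb

set_option autoImplicit false

open Finset SimpleGraph

namespace Pool.Agent.H49.Asym

variable {U W S : Type}

/-- The bipartite graph `B` with the classes `Fin n`, `Fin n` contains an ordered copy of `L`:
an injective map of the vertices, which maps the left vertices to the first class, the others to
the second class, and edges to edges. -/
def HasCopy (L : Ordered U) (n : ℕ) (B : Finset (Fin n × Fin n)) : Prop :=
  ∃ φ : U → Fin n ⊕ Fin n, Function.Injective φ ∧ (∀ u, (φ u).isLeft = L.left u) ∧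
    ∀ u v, L.graph.Adj u v → L.left u = true → ∃ p ∈ B, φ u = Sum.inl p.1 ∧ φ v = Sum.inr p.2

/-- The largest number of edges of a bipartite graph with the classes `Fin n`, `Fin n` without
an ordered copy of `L`. -/
noncomputable def exStar (n : ℕ) (L : Ordered U) : ℕ :=
  sSup {k | ∃ B : Finset (Fin n × Fin n), ¬ HasCopy L n B ∧ B.card = k}

/-- `ex* (n, L) = O (ex (n, L))`. -/
def Question (L : Ordered U) : Prop :=
  ∃ C : ℝ, ∃ N : ℕ, ∀ n : ℕ, N ≤ n →
    (exStar n L : ℝ) ≤ C * (extremalNumber n L.graph : ℝ)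

theorem card_le_exStar {L : Ordered U} {n : ℕ} {B : Finset (Fin n × Fin n)}
    (h : ¬ HasCopy L n B) : B.card ≤ exStar n L := by
  apply le_csSup
  · refine ⟨n * n, ?_⟩
    rintro k ⟨B, _, rfl⟩
    refine (Finset.card_le_univ B).trans (le_of_eq ?_)
    rw [Fintype.card_prod, Fintype.card_fin]
  · exact ⟨B, h, rfl⟩

theorem exStar_le {L : Ordered U} {n k : ℕ}
    (h : ∀ B : Finset (Fin n × Fin n), ¬ HasCopy L n B → B.card ≤ k) : exStar n L ≤ k := by
  apply csSup_le'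
  rintro _ ⟨B, hB, rfl⟩
  exact h B hB

/-- The graph of `B`. -/
def host (n : ℕ) (B : Finset (Fin n × Fin n)) : SimpleGraph (Fin n ⊕ Fin n) where
  Adj x y := ∃ p ∈ B, (x = Sum.inl p.1 ∧ y = Sum.inr p.2) ∨ (x = Sum.inr p.2 ∧ y = Sum.inl p.1)
  symm := ⟨by
    rintro x y ⟨p, hp, h | h⟩
    · exact ⟨p, hp, Or.inr ⟨h.2, h.1⟩⟩
    · exact ⟨p, hp, Or.inl ⟨h.2, h.1⟩⟩⟩
  loopless := ⟨by
    rintro x ⟨p, hp, h | h⟩
    · have := h.1.symm.trans h.2
      simp at this
    · have := h.1.symm.trans h.2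
      simp at this⟩

theorem host_sides {n : ℕ} {B : Finset (Fin n × Fin n)} {x y : Fin n ⊕ Fin n}
    (h : (host n B).Adj x y) : x.isLeft ≠ y.isLeft := by
  obtain ⟨p, _, ⟨rfl, rfl⟩ | ⟨rfl, rfl⟩⟩ := h <;> simp

theorem host_adj {n : ℕ} {B : Finset (Fin n × Fin n)} (p : Fin n × Fin n) :
    (host n B).Adj (Sum.inl p.1) (Sum.inr p.2) ↔ p ∈ B := by
  constructor
  · rintro ⟨q, hq, ⟨h1, h2⟩ | ⟨h1, _⟩⟩
    · have e1 := Sum.inl_injective h1
      have e2 := Sum.inr_injective h2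
      have : p = q := Prod.ext e1 e2
      rw [this]
      exact hq
    · simp at h1
  · intro h
    exact ⟨p, h, Or.inl ⟨rfl, rfl⟩⟩

theorem hasCopy_iff {L : Ordered U} {n : ℕ} {B : Finset (Fin n × Fin n)} :
    HasCopy L n B ↔ ∃ φ, SPlaces L Sum.isLeft (host n B) φ := by
  constructor
  · rintro ⟨φ, h1, h2, h3⟩
    refine ⟨φ, ⟨h1, ?_⟩, h2⟩
    intro u v huv
    cases hu : L.left u with
    | true =>
      obtain ⟨p, hp, e1, e2⟩ := h3 u v huv hu
      exact ⟨p, hp, Or.inl ⟨e1, e2⟩⟩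
    | false =>
      have hv : L.left v = true := by
        have := L.proper u v huv
        rw [hu] at this
        cases h : L.left v
        · exact absurd h.symm this
        · rfl
      obtain ⟨p, hp, e1, e2⟩ := h3 v u huv.symm hv
      exact ⟨p, hp, Or.inr ⟨e2, e1⟩⟩
  · rintro ⟨φ, ⟨h1, h2⟩, h3⟩
    refine ⟨φ, h1, h3, ?_⟩
    intro u v huv hu
    obtain ⟨p, hp, ⟨e1, e2⟩ | ⟨e1, e2⟩⟩ := h2 u v huv
    · exact ⟨p, hp, e1, e2⟩
    · have := h3 u
      rw [e1, hu] at this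
      simp at this

open Classical in
/-- A subgraph of the graph of `B` is the graph of a subset of `B`. -/
theorem sub_host {n : ℕ} {B : Finset (Fin n × Fin n)} {D : SimpleGraph (Fin n ⊕ Fin n)}
    (hD : D ≤ host n B) :
    D = host n (B.filter fun p => D.Adj (Sum.inl p.1) (Sum.inr p.2)) := by
  ext x y
  constructor
  · intro h
    obtain ⟨p, hp, ⟨rfl, rfl⟩ | ⟨rfl, rfl⟩⟩ := hD h
    · exact ⟨p, Finset.mem_filter.2 ⟨hp, h⟩, Or.inl ⟨rfl, rfl⟩⟩
    · exact ⟨p, Finset.mem_filter.2 ⟨hp, h.symm⟩, Or.inr ⟨rfl, rfl⟩⟩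
  · rintro ⟨p, hp, ⟨rfl, rfl⟩ | ⟨rfl, rfl⟩⟩
    · exact (Finset.mem_filter.1 hp).2
    · exact (Finset.mem_filter.1 hp).2.symm

theorem ncard_host {n : ℕ} (B : Finset (Fin n × Fin n)) :
    (host n B).edgeSet.ncard = B.card := by
  have h : (host n B).edgeSet =
      (fun p : Fin n × Fin n => s((Sum.inl p.1 : Fin n ⊕ Fin n), Sum.inr p.2)) '' (B : Set _) := by
    ext e
    induction e using Sym2.ind with
    | _ x y =>
      rw [mem_edgeSet, Set.mem_image]
      constructor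
      · rintro ⟨p, hp, ⟨rfl, rfl⟩ | ⟨rfl, rfl⟩⟩
        · exact ⟨p, hp, rfl⟩
        · exact ⟨p, hp, Sym2.eq_swap⟩
      · rintro ⟨p, hp, heq⟩
        rcases Sym2.eq_iff.1 heq with ⟨h1, h2⟩ | ⟨h1, h2⟩
        · exact ⟨p, hp, Or.inl ⟨h1.symm, h2.symm⟩⟩
        · exact ⟨p, hp, Or.inr ⟨h2.symm, h1.symm⟩⟩
  rw [h, Set.ncard_image_of_injective, Set.ncard_coe_finset]
  intro p q hpq
  rcases Sym2.eq_iff.1 hpq with ⟨h1, h2⟩ | ⟨h1, _⟩
  · exact Prod.ext (Sum.inl_injective h1) (Sum.inr_injective h2)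
  · simp at h1

theorem ncard_le_exStar {L : Ordered U} {n : ℕ} {B : Finset (Fin n × Fin n)}
    {D : SimpleGraph (Fin n ⊕ Fin n)} (hD : D ≤ host n B)
    (h : ∀ φ, ¬ SPlaces L Sum.isLeft D φ) : D.edgeSet.ncard ≤ exStar n L := by
  classical
  rw [sub_host hD] at h ⊢
  rw [ncard_host]
  apply card_le_exStar
  rw [hasCopy_iff]
  push Not
  exact h

/-- The ordered graph `F` contains the ordered graph `L`, with the sides. -/
def Contains (F : Ordered U) (L : Ordered W) : Prop :=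
  ∃ ρ : W → U, SPlaces L F.left F.graph ρ

theorem Contains.exStar_le {F : Ordered U} {L : Ordered W} (h : Contains F L) (n : ℕ) :
    exStar n L ≤ exStar n F := by
  obtain ⟨ρ, hρ⟩ := h
  apply Asym.exStar_le
  intro B hB
  apply card_le_exStar
  intro hF
  apply hB
  rw [hasCopy_iff] at hF ⊢
  obtain ⟨φ, hφ⟩ := hF
  refine ⟨φ ∘ ρ, ⟨hφ.1.1.comp hρ.1.1, fun a b hab => hφ.1.2 _ _ (hρ.1.2 a b hab)⟩, fun w => ?_⟩
  rw [Function.comp_apply, hφ.2, hρ.2]

theorem Contains.isContained {F : Ordered U} {L : Ordered W} (h : Contains F L) :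
    L.graph ⊑ F.graph := by
  obtain ⟨ρ, hρ⟩ := h
  exact Glue.places_not_free hρ.1

theorem gluing_contains_skeleton {W : ℕ → Type} {J : Ordered S} {H : ∀ i, Ordered (W i)}
    {m : ℕ} {F : Ordered U} (hF : IsGluing J H m F) : Contains F J := by
  obtain ⟨e, f, he, hes, _, _, hadj, _⟩ := hF
  exact ⟨e, ⟨he, fun a b hab => (hadj _ _).2 (Or.inl ⟨a, b, hab, rfl, rfl⟩)⟩, hes⟩

theorem gluing_contains_block {W : ℕ → Type} {J : Ordered S} {H : ∀ i, Ordered (W i)}
    {m : ℕ} {F : Ordered U} (hF : IsGluing J H m F) {i : ℕ} (hi : i < m) :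
    Contains F (H i) := by
  obtain ⟨e, f, _, _, hinj, _, hadj, _⟩ := hF
  exact ⟨f i, ⟨(hinj i hi).1, fun a b hab => (hadj _ _).2 (Or.inr ⟨i, hi, a, b, hab, rfl, rfl⟩)⟩,
    (hinj i hi).2⟩

/-- The upper bound for gluings. -/
theorem exStar_gluing [Finite U] [Nonempty S] {W : ℕ → Type} {J : Ordered S}
    {H : ∀ i, Ordered (W i)} {m : ℕ} (hW : ∀ i < m, Nonempty (W i))
    (hconn : ∀ i < m, (H i).graph.Preconnected)
    (harc : ∀ i < m, EdgeTransitive (H i)) (hiso : ∀ i < m, ∀ a, ∃ b, (H i).graph.Adj a b)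
    (h2 : ∃ i < m, DegreesTwo (H i))
    (hJ : ∀ s, ∃ t, J.graph.Adj s t) (F : Ordered U) (hF : IsGluing J H m F) (n : ℕ) :
    exStar n F ≤ exStar n J + 4 * Nat.card U * ∑ i ∈ Finset.range m, exStar n (H i) := by
  apply exStar_le
  intro B hB
  have hU : Nonempty U := by
    obtain ⟨e, _⟩ := hF
    exact ⟨e (Classical.arbitrary S)⟩
  have hpos : 1 ≤ Nat.card U := Nat.card_pos
  obtain ⟨K, hK, hcard, hKr⟩ := exists_robust m W H hconn
    (fun i hi => ⟨@Classical.arbitrary _ (hW i hi), hiso i hi _⟩)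
    Sum.isLeft (Nat.card U) hpos (host n B) (fun i => exStar n (H i))
    (fun i _ D hD h => ncard_le_exStar hD h)
  rw [ncard_host] at hcard
  have hKJ : ∀ ψ, ¬ SPlaces J Sum.isLeft K ψ := by
    intro ψ hψ
    obtain ⟨t, ht⟩ := hJ (Classical.arbitrary S)
    obtain ⟨g, hg⟩ := embed hW harc hiso h2 hJ hKr ⟨_, _, hψ.1.2 _ _ ht⟩
      ⟨ψ, hψ⟩ F hF le_rfl
    exact hB (hasCopy_iff.2 ⟨g, hg.mono hK⟩)
  have h1 := ncard_le_exStar hK hKJ
  omega

/-- The two ways to place a connected bipartite graph. -/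
theorem sides {F : Ordered U} (hF : F.graph.Preconnected) {n : ℕ}
    {B : Finset (Fin n × Fin n)} {φ : U → Fin n ⊕ Fin n} (hφ : Glue.Places F.graph (host n B) φ) :
    (∀ u, (φ u).isLeft = F.left u) ∨ ∀ u, (φ u).isLeft = !F.left u := by
  by_cases hU : Nonempty U
  · obtain ⟨u0⟩ := hU
    have key : ∀ u, (((φ u).isLeft = F.left u) ↔ ((φ u0).isLeft = F.left u0)) := by
      intro u
      obtain ⟨p⟩ := hF u u0
      induction p with
      | nil => exact Iff.rfl
      | @cons a b c h _ ih =>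
        rw [← ih]
        have h1 := host_sides (hφ.2 _ _ h)
        have h2 := F.proper _ _ h
        cases h3 : (φ a).isLeft <;> cases h4 : (φ b).isLeft <;> cases h5 : F.left a <;>
          cases h6 : F.left b <;> simp_all
    by_cases h0 : (φ u0).isLeft = F.left u0
    · left
      intro u
      exact (key u).2 h0
    · right
      intro u
      have h1 := mt (key u).1 h0
      cases h3 : (φ u).isLeft <;> cases h5 : F.left u <;> simp_all
  · left
    intro u
    exact absurd ⟨u⟩ hU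

theorem exStar_le_ex_double {F : Ordered U} (hF : F.graph.Preconnected) {P : Ordered W}
    (h1 : Contains F P) (h2 : Contains F P.rev) (n : ℕ) :
    exStar n P ≤ extremalNumber (n + n) F.graph := by
  apply exStar_le
  intro B hB
  rw [← ncard_host B]
  have e : n + n = Fintype.card (Fin n ⊕ Fin n) := by simp
  rw [e]
  apply Glue.ncard_le_extremalNumber
  intro hcon
  obtain ⟨φ, hφ⟩ := Glue.places_of_contained hcon
  apply hB
  rw [hasCopy_iff]
  rcases sides hF hφ with hs | hs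
  · obtain ⟨ρ, hρ⟩ := h1
    refine ⟨φ ∘ ρ, ⟨hφ.1.comp hρ.1.1, fun a b hab => hφ.2 _ _ (hρ.1.2 a b hab)⟩, fun w => ?_⟩
    rw [Function.comp_apply, hs, hρ.2]
  · obtain ⟨ρ, hρ⟩ := h2
    refine ⟨φ ∘ ρ, ⟨hφ.1.comp hρ.1.1, fun a b hab => hφ.2 _ _ (hρ.1.2 a b hab)⟩, fun w => ?_⟩
    rw [Function.comp_apply, hs, hρ.2]
    simp [Ordered.rev]

theorem ex_double (F : SimpleGraph U) (n : ℕ) (hn : 2 ≤ n) :
    extremalNumber (n + n) F ≤ 6 * extremalNumber n F := by
  have h := antitoneOn_extremalNumber_div_choose_two F (Set.mem_Ici.2 hn)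
    (Set.mem_Ici.2 (by omega : 2 ≤ n + n)) (by omega : n ≤ n + n)
  simp only at h
  have hc1 : (0 : ℝ) < (n.choose 2 : ℝ) := by exact_mod_cast Nat.choose_pos hn
  have hc2 : (0 : ℝ) < ((n + n).choose 2 : ℝ) := by
    exact_mod_cast Nat.choose_pos (by omega : 2 ≤ n + n)
  rw [div_le_div_iff₀ hc2 hc1] at h
  have hc3 : ((n + n).choose 2 : ℝ) ≤ 6 * (n.choose 2 : ℝ) := by
    rw [Nat.cast_choose_two, Nat.cast_choose_two]
    have : (2 : ℝ) ≤ n := by exact_mod_cast hn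
    push_cast
    nlinarith
  have h2 : (extremalNumber (n + n) F : ℝ) * (n.choose 2 : ℝ) ≤
      6 * (extremalNumber n F : ℝ) * (n.choose 2 : ℝ) := by
    calc _ ≤ _ := h
      _ ≤ (extremalNumber n F : ℝ) * (6 * (n.choose 2 : ℝ)) := by gcongr
      _ = _ := by ring
  have h3 := le_of_mul_le_mul_right h2 hc1
  exact_mod_cast h3

end Pool.Agent.H49.Asym
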