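import Mathlib
import Pool.Agent.H49.Asym.Ex
import Pool.Agent.H49.Gap.Half

set_option autoImplicit false

open Finset SimpleGraph

namespace Pool.Agent.H49.Asym

variable {U W S : Type}

theorem ex_le_of_forall {F : SimpleGraph U} (n B : ℕ)
    (h : ∀ G : SimpleGraph (Fin n), F.Free G → G.edgeSet.ncard ≤ B) :
    extremalNumber n F ≤ B := by
  classical
  have h' := (extremalNumber_le_iff (V := Fin n) F B).2
  rw [Fintype.card_fin] at h'
  apply h'
  intro G _ hG
  have e1 : G.edgeFinset.card = G.edgeSet.ncard := by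
    rw [← Set.ncard_coe_finset]
    congr 1
    ext e
    simp
  rw [e1]
  exact h G hG

/-- `ex (n, F) ≤ 2 ex* (n, F)` for graphs without isolated vertices. -/
theorem ex_le_two_exStar (F : Ordered U) (hiso : ∀ u, ∃ v, F.graph.Adj u v) (n : ℕ) :
    extremalNumber n F.graph ≤ 2 * exStar n F := by
  classical
  apply ex_le_of_forall
  intro G hG
  obtain ⟨f, hf⟩ := Gap.exists_half G
  set B : Finset (Fin n × Fin n) :=
    Finset.univ.filter fun p => f p.1 = true ∧ f p.2 = false ∧ G.Adj p.1 p.2 with hB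
  have h1 : (Gap.cutGraph G f).edgeSet.ncard ≤ B.card := by
    have hsub : (Gap.cutGraph G f).edgeSet ⊆
        (fun p : Fin n × Fin n => s(p.1, p.2)) '' (B : Set _) := by
      intro e
      induction e using Sym2.ind with
      | _ x y =>
        intro hxy
        rw [mem_edgeSet] at hxy
        obtain ⟨hxy1, hxy2⟩ := hxy
        rw [Set.mem_image]
        cases hx : f x with
        | true =>
          have hy : f y = false := by
            cases h : f y
            · rfl
            · exact absurd (hx.trans h.symm) hxy2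
          exact ⟨(x, y), by simp [hB, hx, hy, hxy1], rfl⟩
        | false =>
          have hy : f y = true := by
            cases h : f y
            · exact absurd (hx.trans h.symm) hxy2
            · rfl
          exact ⟨(y, x), by simp [hB, hx, hy, hxy1.symm], Sym2.eq_swap⟩
    calc _ ≤ ((fun p : Fin n × Fin n => s(p.1, p.2)) '' (B : Set _)).ncard :=
          Set.ncard_le_ncard hsub (Set.toFinite _)
      _ ≤ (B : Set (Fin n × Fin n)).ncard := Set.ncard_image_le (Set.toFinite _)
      _ = B.card := Set.ncard_coe_finset B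
  have h2 : ¬ HasCopy F n B := by
    rintro ⟨φ, hφ1, hφ2, hφ3⟩
    apply hG
    have hl : ∀ u, F.left u = true → ∃ a, φ u = Sum.inl a ∧ f a = true := by
      intro u hu
      obtain ⟨v, huv⟩ := hiso u
      obtain ⟨p, hp, e1, _⟩ := hφ3 u v huv hu
      rw [hB, Finset.mem_filter] at hp
      exact ⟨p.1, e1, hp.2.1⟩
    have hr : ∀ u, F.left u = false → ∃ a, φ u = Sum.inr a ∧ f a = false := by
      intro u hu
      obtain ⟨v, huv⟩ := hiso u
      have hv : F.left v = true := by
        have := F.proper u v huv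
        rw [hu] at this
        cases h : F.left v
        · exact absurd h.symm this
        · rfl
      obtain ⟨p, hp, _, e2⟩ := hφ3 v u huv.symm hv
      rw [hB, Finset.mem_filter] at hp
      exact ⟨p.2, e2, hp.2.2.1⟩
    apply Glue.places_not_free (φ := fun u => Sum.elim id id (φ u))
    constructor
    · intro u v huv
      simp only at huv
      cases hu : F.left u <;> cases hv : F.left v
      · obtain ⟨a, ha, _⟩ := hr u hu
        obtain ⟨b, hb, _⟩ := hr v hv
        rw [ha, hb] at huv
        simp only [Sum.elim_inr, id] at huv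
        apply hφ1
        rw [ha, hb, huv]
      · obtain ⟨a, ha, ha'⟩ := hr u hu
        obtain ⟨b, hb, hb'⟩ := hl v hv
        rw [ha, hb] at huv
        simp only [Sum.elim_inr, Sum.elim_inl, id] at huv
        rw [huv, hb'] at ha'
        exact absurd ha' (by simp)
      · obtain ⟨a, ha, ha'⟩ := hl u hu
        obtain ⟨b, hb, hb'⟩ := hr v hv
        rw [ha, hb] at huv
        simp only [Sum.elim_inr, Sum.elim_inl, id] at huv
        rw [huv, hb'] at ha'
        exact absurd ha' (by simp)
      · obtain ⟨a, ha, _⟩ := hl u hu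
        obtain ⟨b, hb, _⟩ := hl v hv
        rw [ha, hb] at huv
        simp only [Sum.elim_inl, id] at huv
        apply hφ1
        rw [ha, hb, huv]
    · intro u v huv
      change G.Adj (Sum.elim id id (φ u)) (Sum.elim id id (φ v))
      cases hu : F.left u with
      | true =>
        obtain ⟨p, hp, e1, e2⟩ := hφ3 u v huv hu
        rw [hB, Finset.mem_filter] at hp
        rw [e1, e2]
        exact hp.2.2.2
      | false =>
        have hv : F.left v = true := by
          have := F.proper u v huv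
          rw [hu] at this
          cases h : F.left v
          · exact absurd h.symm this
          · rfl
        obtain ⟨p, hp, e1, e2⟩ := hφ3 v u huv.symm hv
        rw [hB, Finset.mem_filter] at hp
        rw [e1, e2]
        exact hp.2.2.2.symm
  have h3 := card_le_exStar h2
  omega

theorem Contains.refl (L : Ordered U) : Contains L L :=
  ⟨id, ⟨Function.injective_id, fun _ _ h => h⟩, fun _ => rfl⟩

/-- One piece of a gluing. -/
theorem piece {F : Ordered U} (hF : F.graph.Preconnected) {P : Ordered W}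
    (h1 : Contains F P) (h2 : Question P ∨ Contains F P.rev) :
    ∃ C : ℝ, 0 ≤ C ∧ ∃ N : ℕ, ∀ n : ℕ, N ≤ n →
      (exStar n P : ℝ) ≤ C * (extremalNumber n F.graph : ℝ) := by
  rcases h2 with ⟨C, N, h⟩ | h2
  · refine ⟨max C 0, le_max_right _ _, N, fun n hn => (h n hn).trans ?_⟩
    have h3 : (extremalNumber n P.graph : ℝ) ≤ extremalNumber n F.graph := by
      exact_mod_cast h1.isContained.extremalNumber_le
    calc C * (extremalNumber n P.graph : ℝ) ≤ max C 0 * (extremalNumber n P.graph : ℝ) := by
          gcongr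
          exact le_max_left _ _
      _ ≤ _ := by gcongr
  · refine ⟨6, by norm_num, 2, fun n hn => ?_⟩
    exact_mod_cast (exStar_le_ex_double hF h1 h2 n).trans (ex_double F.graph n hn)

/-- **The question for gluings.** -/
theorem question_gluing [Finite U] [Nonempty S] {W : ℕ → Type} {J : Ordered S}
    {H : ∀ i, Ordered (W i)} {m : ℕ} (hW : ∀ i < m, Nonempty (W i))
    (hconn : ∀ i < m, (H i).graph.Preconnected)
    (harc : ∀ i < m, EdgeTransitive (H i)) (hiso : ∀ i < m, ∀ a, ∃ b, (H i).graph.Adj a b)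
    (hdeg : ∃ i < m, DegreesTwo (H i))
    (hJ : ∀ s, ∃ t, J.graph.Adj s t) (F : Ordered U) (hF : IsGluing J H m F)
    (hFc : F.graph.Preconnected) (h1 : Question J ∨ Contains F J.rev)
    (h2 : ∀ i < m, Question (H i) ∨ Contains F (H i).rev) : Question F := by
  obtain ⟨CJ, hCJ, NJ, hJ'⟩ := piece hFc (gluing_contains_skeleton hF) h1
  have h3 : ∀ i, ∃ C : ℝ, 0 ≤ C ∧ ∃ N : ℕ, i < m → ∀ n : ℕ, N ≤ n →
      (exStar n (H i) : ℝ) ≤ C * (extremalNumber n F.graph : ℝ) := by
    intro i
    by_cases hi : i < m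
    · obtain ⟨C, hC, N, h⟩ := piece hFc (gluing_contains_block hF hi) (h2 i hi)
      exact ⟨C, hC, N, fun _ => h⟩
    · exact ⟨0, le_rfl, 0, fun h => absurd h hi⟩
  choose C hC N hN using h3
  refine ⟨CJ + 4 * Nat.card U * ∑ i ∈ Finset.range m, C i,
    max NJ ((Finset.range m).sup N), fun n hn => ?_⟩
  have e1 := exStar_gluing hW hconn harc hiso hdeg hJ F hF n
  have e2 : (exStar n F : ℝ) ≤
      exStar n J + 4 * Nat.card U * ∑ i ∈ Finset.range m, (exStar n (H i) : ℝ) := by
    exact_mod_cast e1
  have e3 : ∑ i ∈ Finset.range m, (exStar n (H i) : ℝ) ≤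
      (∑ i ∈ Finset.range m, C i) * (extremalNumber n F.graph : ℝ) := by
    rw [Finset.sum_mul]
    apply Finset.sum_le_sum
    intro i hi
    apply hN i (Finset.mem_range.1 hi) n
    exact (Finset.le_sup hi).trans ((le_max_right _ _).trans hn)
  calc _ ≤ _ := e2
    _ ≤ CJ * (extremalNumber n F.graph : ℝ) +
        4 * Nat.card U * ((∑ i ∈ Finset.range m, C i) * (extremalNumber n F.graph : ℝ)) := by
        gcongr
        exact hJ' n ((le_max_left _ _).trans hn)
    _ = _ := by ring

theorem rev_le (L : Ordered U) (n : ℕ) : exStar n L.rev ≤ exStar n L := by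
  classical
  apply exStar_le
  intro B hB
  have h1 : ¬ HasCopy L n (B.image Prod.swap) := by
    intro hcon
    apply hB
    rw [hasCopy_iff] at hcon ⊢
    obtain ⟨φ, hφ⟩ := hcon
    refine ⟨fun u => (φ u).swap, ⟨fun u v huv => hφ.1.1 (Sum.swap_leftInverse.injective huv), ?_⟩,
      ?_⟩
    · intro a b hab
      obtain ⟨p, hp, h⟩ := hφ.1.2 a b hab
      rw [Finset.mem_image] at hp
      obtain ⟨q, hq, rfl⟩ := hp
      rcases h with ⟨h1, h2⟩ | ⟨h1, h2⟩
      · exact ⟨q, hq, Or.inr ⟨by change (φ a).swap = _; rw [h1]; rfl,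
          by change (φ b).swap = _; rw [h2]; rfl⟩⟩
      · exact ⟨q, hq, Or.inl ⟨by change (φ a).swap = _; rw [h1]; rfl,
          by change (φ b).swap = _; rw [h2]; rfl⟩⟩
    · intro w
      have := hφ.2 w
      change ((φ w).swap).isLeft = !L.left w
      rw [← this]
      cases h : φ w <;> rfl
  have h2 := card_le_exStar h1
  rwa [Finset.card_image_of_injective _ Prod.swap_injective] at h2

theorem rev_rev (L : Ordered U) : L.rev.rev = L := by
  cases L
  simp [Ordered.rev]

theorem exStar_rev (L : Ordered U) (n : ℕ) : exStar n L.rev = exStar n L :=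
  le_antisymm (rev_le L n) (by
    have := rev_le L.rev n
    rwa [rev_rev] at this)

theorem EdgeTransitive.rev {L : Ordered U} (h : EdgeTransitive L) : EdgeTransitive L.rev := by
  intro a b c d hab hcd hac
  obtain ⟨α, h1, h2, h3⟩ := h a b c d hab hcd (by simpa [Ordered.rev] using hac)
  exact ⟨α, h1, h2, fun w => by change (!L.left (α w)) = !L.left w; rw [h3 w]⟩

theorem DegreesTwo.rev {L : Ordered U} (h : DegreesTwo L) : DegreesTwo L.rev := h

/-- A gluing has no isolated vertices. -/
theorem gluing_adj {W : ℕ → Type} {J : Ordered S} {H : ∀ i, Ordered (W i)} {m : ℕ}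
    (hiso : ∀ i < m, ∀ a, ∃ b, (H i).graph.Adj a b) (hJ : ∀ s, ∃ t, J.graph.Adj s t)
    {F : Ordered U} (hF : IsGluing J H m F) : ∀ u, ∃ v, F.graph.Adj u v := by
  intro u
  obtain ⟨e, f, _, _, _, hcov, hadj, _⟩ := hF
  rcases hcov u with ⟨s, rfl⟩ | ⟨j, hj, w, rfl⟩
  · obtain ⟨t, ht⟩ := hJ s
    exact ⟨e t, (hadj _ _).2 (Or.inl ⟨s, t, ht, rfl, rfl⟩)⟩
  · obtain ⟨t, ht⟩ := hiso j hj w
    exact ⟨f j t, (hadj _ _).2 (Or.inr ⟨j, hj, w, t, ht, rfl, rfl⟩)⟩

/-- Gluings which contain `L` in both orders, of pieces of `L`. -/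
theorem both_orders {T : Type} [Finite U] [Nonempty S] {L : Ordered T} {W : ℕ → Type}
    {J : Ordered S} {H : ∀ i, Ordered (W i)} {m : ℕ} (hW : ∀ i < m, Nonempty (W i))
    (hconn : ∀ i < m, (H i).graph.Preconnected)
    (harc : ∀ i < m, EdgeTransitive (H i)) (hiso : ∀ i < m, ∀ a, ∃ b, (H i).graph.Adj a b)
    (hdeg : ∃ i < m, DegreesTwo (H i))
    (hJ : ∀ s, ∃ t, J.graph.Adj s t) (F : Ordered U) (hF : IsGluing J H m F)
    (hFc : F.graph.Preconnected) (h1 : Contains L J ∨ Contains L.rev J)
    (h2 : ∀ i < m, Contains L (H i) ∨ Contains L.rev (H i))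
    (h3 : Contains F L) (h4 : Contains F L.rev) :
    (∀ n, 2 ≤ n → exStar n L ≤ 6 * extremalNumber n F.graph) ∧
      (∀ n, exStar n F ≤ (1 + 4 * Nat.card U * m) * exStar n L) ∧
      (∀ n, extremalNumber n F.graph ≤ 2 * (1 + 4 * Nat.card U * m) * exStar n L) ∧
      Question F ∧
      (Question L ↔ ∃ C : ℝ, ∃ N : ℕ, ∀ n : ℕ, N ≤ n →
        (extremalNumber n F.graph : ℝ) ≤ C * (extremalNumber n L.graph : ℝ)) := by
  have hle : ∀ {X : Type} (P : Ordered X), (Contains L P ∨ Contains L.rev P) →
      ∀ n, exStar n P ≤ exStar n L := by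
    rintro X P (h | h) n
    · exact h.exStar_le n
    · exact (h.exStar_le n).trans (exStar_rev L n).le
  have hup : ∀ n, exStar n F ≤ (1 + 4 * Nat.card U * m) * exStar n L := by
    intro n
    have h := exStar_gluing hW hconn harc hiso hdeg hJ F hF n
    have h' : ∑ i ∈ Finset.range m, exStar n (H i) ≤ m * exStar n L := by
      calc _ ≤ ∑ i ∈ Finset.range m, exStar n L :=
            Finset.sum_le_sum fun i hi => hle _ (h2 i (Finset.mem_range.1 hi)) n
        _ = _ := by rw [Finset.sum_const, Finset.card_range, smul_eq_mul]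
    calc _ ≤ _ := h
      _ ≤ exStar n L + 4 * Nat.card U * (m * exStar n L) :=
          Nat.add_le_add (hle _ h1 n) (Nat.mul_le_mul_left _ h')
      _ = _ := by ring
  have hlow : ∀ n, 2 ≤ n → exStar n L ≤ 6 * extremalNumber n F.graph := fun n hn =>
    (exStar_le_ex_double hFc h3 h4 n).trans (ex_double F.graph n hn)
  have hup2 : ∀ n, extremalNumber n F.graph ≤ 2 * (1 + 4 * Nat.card U * m) * exStar n L := by
    intro n
    have h1 := ex_le_two_exStar F (gluing_adj hiso hJ hF) n
    calc _ ≤ _ := h1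
      _ ≤ 2 * ((1 + 4 * Nat.card U * m) * exStar n L) := Nat.mul_le_mul_left _ (hup n)
      _ = _ := by ring
  refine ⟨hlow, hup, hup2, ?_, ?_⟩
  · refine ⟨(1 + 4 * Nat.card U * m) * 6, 2, fun n hn => ?_⟩
    have e1 : (exStar n F : ℝ) ≤ (1 + 4 * Nat.card U * m) * (exStar n L : ℝ) := by
      exact_mod_cast hup n
    have e2 : (exStar n L : ℝ) ≤ 6 * (extremalNumber n F.graph : ℝ) := by
      exact_mod_cast hlow n hn
    calc _ ≤ _ := e1
      _ ≤ (1 + 4 * Nat.card U * m) * (6 * (extremalNumber n F.graph : ℝ)) := by gcongr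
      _ = _ := by ring
  · constructor
    · rintro ⟨C, N, h⟩
      refine ⟨2 * (1 + 4 * Nat.card U * m) * C, N, fun n hn => ?_⟩
      have h1 : (extremalNumber n F.graph : ℝ) ≤
          2 * (1 + 4 * Nat.card U * m) * (exStar n L : ℝ) := by exact_mod_cast hup2 n
      calc _ ≤ _ := h1
        _ ≤ 2 * (1 + 4 * Nat.card U * m) * (C * (extremalNumber n L.graph : ℝ)) := by
            gcongr
            exact h n hn
        _ = _ := by ring
    · rintro ⟨C, N, h⟩
      refine ⟨6 * C, max N 2, fun n hn => ?_⟩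
      have h1 : (exStar n L : ℝ) ≤ 6 * (extremalNumber n F.graph : ℝ) := by
        exact_mod_cast hlow n ((le_max_right _ _).trans hn)
      calc _ ≤ _ := h1
        _ ≤ 6 * (C * (extremalNumber n L.graph : ℝ)) := by
            gcongr
            exact h n ((le_max_left _ _).trans hn)
        _ = _ := by ring

end Pool.Agent.H49.Asym
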