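import Mathlib
import Pool.Agent.H49.Asym.Main

set_option autoImplicit false

open Finset SimpleGraph

namespace Pool.Agent.H49.Asym

variable {U W S : Type}

/-- The complete bipartite graph `K (s, t)`; the class of size `s` is the left one. -/
def Kst (s t : ℕ) : Ordered (Fin s ⊕ Fin t) where
  graph := completeBipartiteGraph (Fin s) (Fin t)
  left := Sum.isLeft
  proper := by
    rintro (a | a) (b | b) h <;> simp at h ⊢

theorem kst_transitive (s t : ℕ) : EdgeTransitive (Kst s t) := by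
  rintro (a | a) (b | b) (c | c) (d | d) hab hcd hac <;>
    simp only [Kst, completeBipartiteGraph_adj, Sum.isLeft_inl, Sum.isLeft_inr,
      Sum.isRight_inl, Sum.isRight_inr] at hab hcd hac
  all_goals try simp at hab
  all_goals try simp at hcd
  all_goals try simp at hac
  · refine ⟨⟨Equiv.sumCongr (Equiv.swap a c) (Equiv.swap b d), ?_⟩, ?_, ?_, ?_⟩
    · rintro (x | x) (y | y) <;> simp [Kst]
    · simp
    · simp
    · rintro (x | x) <;> rfl
  · refine ⟨⟨Equiv.sumCongr (Equiv.swap b d) (Equiv.swap a c), ?_⟩, ?_, ?_, ?_⟩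
    · rintro (x | x) (y | y) <;> simp [Kst]
    · simp
    · simp
    · rintro (x | x) <;> rfl

theorem kst_degrees {s t : ℕ} (hs : 2 ≤ s) (ht : 2 ≤ t) : DegreesTwo (Kst s t) := by
  constructor
  · rintro (a | a)
    · exact ⟨Sum.inr ⟨0, by omega⟩, by simp [Kst]⟩
    · exact ⟨Sum.inl ⟨0, by omega⟩, by simp [Kst]⟩
  · rintro (a | a) (b | b) hab
    · simp [Kst] at hab
    · by_cases h : b = ⟨0, by omega⟩
      · exact ⟨Sum.inr ⟨1, by omega⟩, by rw [h]; simp, by simp [Kst]⟩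
      · exact ⟨Sum.inr ⟨0, by omega⟩, by simpa using Ne.symm h, by simp [Kst]⟩
    · by_cases h : b = ⟨0, by omega⟩
      · exact ⟨Sum.inl ⟨1, by omega⟩, by rw [h]; simp, by simp [Kst]⟩
      · exact ⟨Sum.inl ⟨0, by omega⟩, by simpa using Ne.symm h, by simp [Kst]⟩
    · simp [Kst] at hab

theorem kst_connected {s t : ℕ} (hs : 1 ≤ s) (ht : 1 ≤ t) : (Kst s t).graph.Preconnected := by
  have hx : ∀ a b, (Kst s t).graph.Reachable (Sum.inl a) (Sum.inr b) := fun a b =>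
    Adj.reachable (by simp [Kst])
  rintro (a | a) (b | b)
  · exact (hx a ⟨0, by omega⟩).trans (hx b ⟨0, by omega⟩).symm
  · exact hx a b
  · exact (hx b a).symm
  · exact (hx ⟨0, by omega⟩ a).symm.trans (hx ⟨0, by omega⟩ b)

theorem Contains.trans {F : Ordered U} {L : Ordered W} {P : Ordered S} (h1 : Contains F L)
    (h2 : Contains L P) : Contains F P := by
  obtain ⟨ρ, hρ⟩ := h1
  obtain ⟨θ, hθ⟩ := h2
  exact ⟨ρ ∘ θ, ⟨hρ.1.1.comp hθ.1.1, fun a b hab => hρ.1.2 _ _ (hθ.1.2 a b hab)⟩,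
    fun w => by rw [Function.comp_apply, hρ.2, hθ.2]⟩

theorem kst_contains_rev {s t s' t' : ℕ} (h1 : t ≤ s') (h2 : s ≤ t') :
    Contains (Kst s' t') (Kst s t).rev := by
  refine ⟨Sum.elim (fun i => Sum.inr (Fin.castLE h2 i)) (fun j => Sum.inl (Fin.castLE h1 j)),
    ⟨?_, ?_⟩, ?_⟩
  · rintro (a | a) (b | b) hab <;> simp at hab <;> rw [hab]
  · rintro (a | a) (b | b) hab <;> simp [Kst, Ordered.rev] at hab ⊢
  · rintro (a | a) <;> simp [Kst, Ordered.rev]

theorem kst_adj {s t : ℕ} (hs : 1 ≤ s) (ht : 1 ≤ t) : ∀ a, ∃ b, (Kst s t).graph.Adj a b := by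
  rintro (a | a)
  · exact ⟨Sum.inr ⟨0, by omega⟩, by simp [Kst]⟩
  · exact ⟨Sum.inl ⟨0, by omega⟩, by simp [Kst]⟩

/-- Connected gluings of complete bipartite graphs. -/
theorem complete_blocks [Finite U] (m : ℕ) (s t : ℕ → ℕ) (hs : ∀ i < m, 1 ≤ s i ∧ 1 ≤ t i)
    (h2 : ∃ i < m, 2 ≤ s i ∧ 2 ≤ t i)
    (hrev : ∀ i < m, ∃ j < m, t i ≤ s j ∧ s i ≤ t j) (F : Ordered U)
    (hF : IsGluing (Kst 1 1) (fun i => Kst (s i) (t i)) m F) (hFc : F.graph.Preconnected) :
    Question F := by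
  apply question_gluing (fun i hi => ⟨Sum.inl ⟨0, (hs i hi).1⟩⟩)
    (fun i hi => kst_connected (hs i hi).1 (hs i hi).2)
    (fun i _ => kst_transitive _ _) (fun i hi => kst_adj (hs i hi).1 (hs i hi).2)
    ?_ (kst_adj le_rfl le_rfl) F hF hFc
    (Or.inr ((gluing_contains_skeleton hF).trans (kst_contains_rev le_rfl le_rfl)))
  · intro i hi
    obtain ⟨j, hj, h1, h2⟩ := hrev i hi
    exact Or.inr ((gluing_contains_block hF hj).trans (kst_contains_rev h1 h2))
  · obtain ⟨i, hi, h3, h4⟩ := h2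
    exact ⟨i, hi, kst_degrees h3 h4⟩

end Pool.Agent.H49.Asym
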